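import Pool.Agent.Lib_helper36.CMC.Plain
import Pool.Agent.Lib_helper36.CMC.Plain2
import Pool.Agent.Lib_helper36.CMC.End

/-!
# The measure contraction property fails on Carnot groups of rank two and step at least three

`Carnot n` is the structure of Carnot groups in exponential coordinates, `MCP G N` is `MCP(0, N)`
for the Carnot-Caratheodory distance and Lebesgue (= Haar) measure, and `NonIdeal G` says that
some nontrivial abnormal curve (critical point of the endpoint map) is a minimizing geodesic.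

A Carnot group of rank two with a layer of weight at least three, and more generally every Carnot
group (of any rank) having `Y ∈ 𝔤₁` and a linear functional `l` with `l [Y, [a, b]] = 0` and
`l [a, [a, Y]] ≥ 0` on `𝔤₁`, not identically zero, is non-ideal and satisfies `MCP(0, N)` for no
real `N`. The Engel group is an example.
-/

set_option autoImplicit false

namespace Pool.Agent.Results.MP_927ab7_gt.RankTwoFailsMCP

open Pool.Agent.CMC MeasureTheory

theorem result :
    (∀ (n : ℕ) (G : Carnot n),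
      (((∃ i j : Fin n, i ≠ j ∧ ∀ k, G.wt k = 1 ↔ k = i ∨ k = j) ∧ ∃ k, 3 ≤ G.wt k) ∨
        ∃ Y ∈ lay G.wt 1, ∃ l : (Fin n → ℝ) →ₗ[ℝ] ℝ,
          (∀ a ∈ lay G.wt 1, ∀ b ∈ lay G.wt 1, l (brk G.mul Y (brk G.mul a b)) = 0) ∧
          (∀ a ∈ lay G.wt 1, 0 ≤ l (brk G.mul a (brk G.mul a Y))) ∧
          ∃ a ∈ lay G.wt 1, l (brk G.mul a (brk G.mul a Y)) ≠ 0) →
      (∀ g, MeasurePreserving (G.mul g) volume volume) ∧ NonIdeal G ∧ ∀ N : ℝ, ¬ MCP G N) ∧
    ∃ G : Carnot 4, G.wt = ![1, 1, 2, 3] ∧ NonIdeal G ∧ ∀ N : ℝ, ¬ MCP G N :=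
  end_theorem

end Pool.Agent.Results.MP_927ab7_gt.RankTwoFailsMCP
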